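import Mathlib
import Pool.Agent.P.MP_510dd6_gt.Defs
import Pool.Agent.P.MP_510dd6_gt.Main
import Pool.Agent.P.MP_510dd6_gt.CW

namespace Pool.Agent.Results.MP_510dd6_gt.HeisCircle

/-- There is a group whose center has infinite index and whose space `E_com G` is homotopy
equivalent to the circle, which is a finite CW complex. -/
theorem result :
    ∃ (G : Type) (_ : Group G) (_ : Topology.CWComplex (Set.univ : Set Circle)),
      Topology.CWComplex.Finite (Set.univ : Set Circle) ∧
      ¬ (Subgroup.center G).FiniteIndex ∧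
      Nonempty (ContinuousMap.HomotopyEquiv
        (SSet.toTop.obj (Pool.Agent.P.MP_510dd6_gt.EcomSSet G)) Circle) := by
  obtain ⟨cw, h⟩ := Pool.Agent.P.MP_510dd6_gt.circle_cw
  exact ⟨Pool.Agent.P.MP_510dd6_gt.Heis, inferInstance, cw, h,
    Pool.Agent.P.MP_510dd6_gt.center_not_finiteIndex, ⟨Pool.Agent.P.MP_510dd6_gt.equivCircle⟩⟩

end Pool.Agent.Results.MP_510dd6_gt.HeisCircle
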